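import Pool.Agent.R755.Iso.Plane

/-!
# The Pythagorean inequality for isoperimetric profiles fails for the two-sided exponential law
-/

set_option autoImplicit false

namespace Pool.Agent.Results.MP_662df3_gt.TwoSidedExponential

open MeasureTheory Set Filter Topology
open scoped ENNReal NNReal

/-- The boundary measure `μ⁺(A)`: the lower limit, as `r → 0+`, of `(μ(A_r) - μ(A)) / r`, where `A_r`
is the open `r`-neighbourhood of `A`. -/
noncomputable def bdry {X : Type} [PseudoMetricSpace X] [MeasurableSpace X] (μ : Measure X)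
    (A : Set X) : ℝ≥0∞ :=
  liminf (fun r : ℝ => (μ (Metric.thickening r A) - μ A) / ENNReal.ofReal r) (𝓝[>] 0)

/-- The isoperimetric profile `I_μ(a)`: the infimum of `μ⁺(A)` over measurable `A` with
`μ(A) = a`. -/
noncomputable def prof {X : Type} [PseudoMetricSpace X] [MeasurableSpace X] (μ : Measure X)
    (a : ℝ) : ℝ≥0∞ :=
  ⨅ A : {A : Set X // MeasurableSet A ∧ μ A = ENNReal.ofReal a}, bdry μ A.1

/-- `R_μ(a) = I_μ(a) / a`. -/
noncomputable def rat {X : Type} [PseudoMetricSpace X] [MeasurableSpace X] (μ : Measure X)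
    (a : ℝ) : ℝ≥0∞ := prof μ a / ENNReal.ofReal a

/-- `μ` is a symmetric log-concave probability law on the real line: it has a density `exp (-V)`
with `V` convex. -/
def SymLogConcave (μ : Measure ℝ) : Prop :=
  IsProbabilityMeasure μ ∧ (∀ A : Set ℝ, MeasurableSet A → μ (-A) = μ A) ∧
    ∃ V : ℝ → ℝ, ConvexOn ℝ univ V ∧
      μ = (volume : Measure ℝ).withDensity (fun x => ENNReal.ofReal (Real.exp (-V x)))

/-- The product measure on the Euclidean plane. -/
noncomputable def prod2 (μ₁ μ₂ : Measure ℝ) : Measure (EuclideanSpace ℝ (Fin 2)) :=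
  (μ₁.prod μ₂).map (fun p => !₂[p.1, p.2])

/-- The two-sided exponential law, with density `exp (-|x|) / 2`. -/
noncomputable def lap : Measure ℝ :=
  (volume : Measure ℝ).withDensity (fun x => ENNReal.ofReal (Real.exp (-|x|) / 2))

theorem lap_eq : lap = Pool.Agent.R755.Iso.lap := rfl

instance : IsProbabilityMeasure lap := by rw [lap_eq]; infer_instance

theorem lap_slc : SymLogConcave lap := by
  refine ⟨inferInstance, ?_, fun x => |x| + Real.log 2, ?_, ?_⟩
  · intro A hA
    rw [lap_eq, Pool.Agent.R755.Iso.lap_apply hA, Pool.Agent.R755.Iso.lap_apply hA.neg,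
      ← lintegral_indicator hA.neg, ← lintegral_indicator hA]
    rw [← lintegral_neg_eq_self (fun x => A.indicator (fun x => ENNReal.ofReal (Real.exp (-|x|) / 2)) x)]
    apply lintegral_congr
    intro x
    by_cases hx : -x ∈ A
    · have hx' : x ∈ -A := hx
      rw [indicator_of_mem hx, indicator_of_mem hx', abs_neg]
    · have hx' : x ∉ -A := hx
      rw [indicator_of_notMem hx, indicator_of_notMem hx']
  · exact (convexOn_norm (convex_univ)).add_const _
  · unfold lap
    congr 1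
    ext x
    congr 1
    rw [neg_add, Real.exp_add, Real.exp_neg (Real.log 2), Real.exp_log (by norm_num)]
    ring

/-- the profile of the two-sided exponential law -/
theorem prof_ge {t : ℝ} (ht0 : 0 < t) (ht1 : t ≤ 1) : ENNReal.ofReal (min t (1 - t)) ≤ prof lap t := by
  apply le_iInf
  rintro ⟨A, hA, hAt⟩
  have htA : (lap A).toReal = t := by rw [hAt, ENNReal.toReal_ofReal ht0.le]
  have hne : A.Nonempty := by
    by_contra h
    rw [Set.not_nonempty_iff_eq_empty] at h
    rw [h, measure_empty, ENNReal.toReal_zero] at htA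
    linarith
  apply ENNReal.le_of_forall_pos_le_add
  intro ε hε _
  have hε' : (0 : ℝ) < ε := hε
  rw [← tsub_le_iff_right]
  apply le_liminf_of_le
  · isBoundedDefault
  have hI : Ioo (0 : ℝ) (ε : ℝ) ∈ 𝓝[>] (0 : ℝ) := Ioo_mem_nhdsGT hε'
  filter_upwards [hI] with r hr
  have hr0 : 0 < r := hr.1
  have hkey := Pool.Agent.R755.Iso.key A hA hne r hr0
  rw [← lap_eq, htA] at hkey
  set q := (lap (Metric.thickening r A)).toReal with hq
  have hq' : lap (Metric.thickening r A) = ENNReal.ofReal q := by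
    rw [hq, ENNReal.ofReal_toReal (measure_ne_top _ _)]
  rw [hq', hAt, ← ENNReal.ofReal_sub _ ht0.le, ← ENNReal.ofReal_div_of_pos hr0,
    ← ENNReal.ofReal_coe_nnreal, ← ENNReal.ofReal_sub _ hε'.le]
  apply ENNReal.ofReal_le_ofReal
  rw [le_div_iff₀ hr0]
  rcases le_or_gt (q - t) ε with h | h
  · have h1 : min t (1 - t) - ε ≤ min t (1 - q) := by
      apply le_min
      · linarith [min_le_left t (1 - t)]
      · linarith [min_le_right t (1 - t)]
    nlinarith
  · have h1 : min t (1 - t) - ε ≤ 1 := by linarith [min_le_left t (1 - t)]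
    have h2 := hr.2
    nlinarith

/-- an upper bound for the boundary measure of the half-plane -/
theorem half_plane :
    prod2 lap lap {z | 1 < z 0 + z 1} = ENNReal.ofReal (3 / (4 * Real.exp 1)) ∧
      bdry (prod2 lap lap) {z | 1 < z 0 + z 1} ≤ ENNReal.ofReal (√2 / (2 * Real.exp 1)) := by
  have hmap : Measurable (fun p : ℝ × ℝ => (!₂[p.1, p.2] : EuclideanSpace ℝ (Fin 2))) := by
    fun_prop
  have hT : ∀ s : ℝ, 0 ≤ s → prod2 lap lap {z | s < z 0 + z 1} =
      ENNReal.ofReal (Real.exp (-s) * (2 + s) / 4) := by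
    intro s hs
    rw [prod2, Measure.map_apply hmap (by
      apply measurableSet_lt measurable_const
      fun_prop)]
    rw [← Pool.Agent.R755.Iso.diag_tail hs]
    rfl
  have he : 0 < Real.exp 1 := Real.exp_pos 1
  have h1 : prod2 lap lap {z | 1 < z 0 + z 1} = ENNReal.ofReal (3 / (4 * Real.exp 1)) := by
    rw [hT 1 zero_le_one, Real.exp_neg]
    congr 1
    field_simp
    norm_num
  refine ⟨h1, ?_⟩
  set φ : ℝ → ℝ := fun r => Real.exp (-(1 - √2 * r)) * (2 + (1 - √2 * r)) / 4 with hφ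
  have hd : HasDerivAt φ (√2 / (2 * Real.exp 1)) 0 := by
    have e1 : HasDerivAt (fun r : ℝ => 1 - √2 * r) (-(√2)) 0 := by
      simpa using (((hasDerivAt_id (0:ℝ)).const_mul √2).const_sub 1)
    have e2 := (e1.neg.exp.mul (e1.const_add 2)).div_const 4
    refine e2.congr_deriv ?_
    simp only [Pi.neg_apply, mul_zero, sub_zero, neg_neg]
    rw [Real.exp_neg]
    field_simp
    ring
  have hφ0 : φ 0 = 3 / (4 * Real.exp 1) := by
    simp only [hφ, mul_zero, sub_zero]
    rw [Real.exp_neg]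
    field_simp
    norm_num
  have hlim : Tendsto (fun r : ℝ => (φ r - φ 0) / r) (𝓝[>] 0) (𝓝 (√2 / (2 * Real.exp 1))) := by
    have h2 := hd.tendsto_slope
    have h3 : Tendsto (slope φ 0) (𝓝[>] 0) (𝓝 (√2 / (2 * Real.exp 1))) :=
      h2.mono_left (nhdsWithin_mono _ (fun x hx => ne_of_gt hx))
    refine h3.congr ?_
    intro r
    rw [slope_def_field, sub_zero]
  have hlim2 : Tendsto (fun r : ℝ => ENNReal.ofReal ((φ r - φ 0) / r)) (𝓝[>] 0)
      (𝓝 (ENNReal.ofReal (√2 / (2 * Real.exp 1)))) :=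
    (ENNReal.continuous_ofReal.tendsto _).comp hlim
  rw [← hlim2.liminf_eq]
  apply liminf_le_liminf
  · have hI : Ioo (0 : ℝ) (1 / 2) ∈ 𝓝[>] (0 : ℝ) := Ioo_mem_nhdsGT (by norm_num)
    filter_upwards [hI] with r hr
    have hr0 : 0 < r := hr.1
    have hs2 : √2 * r ≤ 1 := by
      have : √2 ≤ 2 := by
        rw [Real.sqrt_le_left (by norm_num)]; norm_num
      nlinarith [hr.2, Real.sqrt_nonneg 2]
    have hsub : Metric.thickening r {z : EuclideanSpace ℝ (Fin 2) | 1 < z 0 + z 1} ⊆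
        {z | 1 - √2 * r < z 0 + z 1} := by
      intro z hz
      obtain ⟨w, hw, hzw⟩ := Metric.mem_thickening_iff.mp hz
      have hw' : 1 < w 0 + w 1 := hw
      show 1 - √2 * r < z 0 + z 1
      have h4 : dist z w ^ 2 = (z 0 - w 0) ^ 2 + (z 1 - w 1) ^ 2 := by
        rw [EuclideanSpace.dist_eq, Real.sq_sqrt (by positivity), Fin.sum_univ_two]
        simp [Real.dist_eq, sq_abs]
      have h5 : (w 0 + w 1 - (z 0 + z 1)) ^ 2 < (√2 * r) ^ 2 := by
        rw [mul_pow, Real.sq_sqrt (by norm_num)]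
        have h6 : dist z w ^ 2 < r ^ 2 := by
          apply pow_lt_pow_left₀ hzw dist_nonneg (by norm_num)
        nlinarith [sq_nonneg ((z 0 - w 0) - (z 1 - w 1))]
      have h7 := abs_lt_of_sq_lt_sq h5 (by positivity)
      have h8 := (abs_lt.mp h7).2
      linarith
    rw [h1, ENNReal.ofReal_div_of_pos hr0]
    gcongr
    rw [ENNReal.ofReal_sub _ (by rw [hφ0]; positivity), hφ0]
    gcongr
    refine (measure_mono hsub).trans ?_
    rw [hT _ (by linarith)]
  all_goals isBoundedDefault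

theorem rat_ge {t : ℝ} (ht0 : 0 < t) (ht1 : t ≤ 1) :
    ENNReal.ofReal (min t (1 - t) / t) ≤ rat lap t := by
  unfold rat
  rw [ENNReal.ofReal_div_of_pos ht0]
  gcongr
  exact prof_ge ht0 ht1

/-- **Counterexample.** -/
theorem result :
    SymLogConcave lap ∧ 3 / (4 * Real.exp 1) ∈ Ioo (0 : ℝ) (1 / 2) ∧
      rat (prod2 lap lap) (3 / (4 * Real.exp 1)) ^ 2 ≤ ENNReal.ofReal (8 / 9) ∧
      1 ≤ ⨅ p : {p : ℝ × ℝ // p.1 ∈ Ioc (0 : ℝ) 1 ∧ p.2 ∈ Ioc (0 : ℝ) 1 ∧
          p.1 * p.2 = 3 / (4 * Real.exp 1)}, (rat lap p.1.1 ^ 2 + rat lap p.1.2 ^ 2) ∧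
      rat (prod2 lap lap) (3 / (4 * Real.exp 1)) ^ 2 <
        ⨅ p : {p : ℝ × ℝ // p.1 ∈ Ioc (0 : ℝ) 1 ∧ p.2 ∈ Ioc (0 : ℝ) 1 ∧
          p.1 * p.2 = 3 / (4 * Real.exp 1)}, (rat lap p.1.1 ^ 2 + rat lap p.1.2 ^ 2) := by
  have he : (2.7 : ℝ) < Real.exp 1 := by
    have := Real.exp_one_gt_d9
    linarith
  have ha0 : 0 < 3 / (4 * Real.exp 1) := by positivity
  have ha1 : 3 / (4 * Real.exp 1) < 5 / 18 := by
    rw [div_lt_div_iff₀ (by positivity) (by norm_num)]
    linarith
  have hL : rat (prod2 lap lap) (3 / (4 * Real.exp 1)) ^ 2 ≤ ENNReal.ofReal (8 / 9) := by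
    obtain ⟨h1, h2⟩ := half_plane
    have hm : MeasurableSet {z : EuclideanSpace ℝ (Fin 2) | 1 < z 0 + z 1} := by
      apply measurableSet_lt measurable_const
      fun_prop
    have h3 : prof (prod2 lap lap) (3 / (4 * Real.exp 1)) ≤ ENNReal.ofReal (√2 / (2 * Real.exp 1)) := by
      refine le_trans ?_ h2
      exact iInf_le (fun A : {A : Set (EuclideanSpace ℝ (Fin 2)) // MeasurableSet A ∧
        prod2 lap lap A = ENNReal.ofReal (3 / (4 * Real.exp 1))} => bdry (prod2 lap lap) A.1)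
        ⟨{z | 1 < z 0 + z 1}, hm, h1⟩
    have h4 : rat (prod2 lap lap) (3 / (4 * Real.exp 1)) ≤ ENNReal.ofReal (2 * √2 / 3) := by
      unfold rat
      calc prof (prod2 lap lap) (3 / (4 * Real.exp 1)) / ENNReal.ofReal (3 / (4 * Real.exp 1))
          ≤ ENNReal.ofReal (√2 / (2 * Real.exp 1)) / ENNReal.ofReal (3 / (4 * Real.exp 1)) := by
            gcongr
        _ = ENNReal.ofReal (√2 / (2 * Real.exp 1) / (3 / (4 * Real.exp 1))) := by
            rw [ENNReal.ofReal_div_of_pos ha0]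
        _ = ENNReal.ofReal (2 * √2 / 3) := by
            congr 1
            field_simp
            norm_num
    calc rat (prod2 lap lap) (3 / (4 * Real.exp 1)) ^ 2 ≤ ENNReal.ofReal (2 * √2 / 3) ^ 2 := by
          gcongr
      _ = ENNReal.ofReal (8 / 9) := by
          rw [← ENNReal.ofReal_pow (by positivity)]
          congr 1
          rw [div_pow, mul_pow, Real.sq_sqrt (by norm_num)]
          norm_num
  have hR : 1 ≤ ⨅ p : {p : ℝ × ℝ // p.1 ∈ Ioc (0 : ℝ) 1 ∧ p.2 ∈ Ioc (0 : ℝ) 1 ∧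
          p.1 * p.2 = 3 / (4 * Real.exp 1)}, (rat lap p.1.1 ^ 2 + rat lap p.1.2 ^ 2) := by
    apply le_iInf
    rintro ⟨⟨a, b⟩, ha, hb, hab⟩
    simp only at ha hb hab ⊢
    have small : ∀ t : ℝ, t ∈ Ioc (0 : ℝ) 1 → t ≤ 1 / 2 → 1 ≤ rat lap t ^ 2 := by
      intro t ht h
      have h1 := rat_ge ht.1 ht.2
      rw [min_eq_left (by linarith), div_self ht.1.ne', ENNReal.ofReal_one] at h1
      calc (1 : ℝ≥0∞) = 1 ^ 2 := by rw [one_pow]
        _ ≤ _ := by gcongr
    rcases le_or_gt a (1 / 2) with h | h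
    · exact (small a ha h).trans le_self_add
    rcases le_or_gt b (1 / 2) with h' | h'
    · exact (small b hb h').trans le_add_self
    have large : ∀ t : ℝ, t ∈ Ioc (0 : ℝ) 1 → 1 / 2 < t → t ≤ 5 / 9 →
        ENNReal.ofReal (1 / 2) ≤ rat lap t ^ 2 := by
      intro t ht h1 h2
      have h3 := rat_ge ht.1 ht.2
      rw [min_eq_right (by linarith)] at h3
      have h4 : (4 : ℝ) / 5 ≤ (1 - t) / t := by
        rw [le_div_iff₀ ht.1]
        linarith
      calc ENNReal.ofReal (1 / 2) ≤ ENNReal.ofReal (4 / 5) ^ 2 := by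
            rw [← ENNReal.ofReal_pow (by norm_num)]
            apply ENNReal.ofReal_le_ofReal
            norm_num
        _ ≤ _ := by
            gcongr
            exact (ENNReal.ofReal_le_ofReal h4).trans h3
    have hab' : a * b < 5 / 18 := by rw [hab]; exact ha1
    have ha2 : a ≤ 5 / 9 := by nlinarith
    have hb2 : b ≤ 5 / 9 := by nlinarith
    calc (1 : ℝ≥0∞) = ENNReal.ofReal (1 / 2) + ENNReal.ofReal (1 / 2) := by
          rw [← ENNReal.ofReal_add (by norm_num) (by norm_num)]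
          norm_num
      _ ≤ _ := add_le_add (large a ha h ha2) (large b hb h' hb2)
  refine ⟨lap_slc, ⟨ha0, by linarith⟩, hL, hR, lt_of_le_of_lt hL (lt_of_lt_of_le ?_ hR)⟩
  rw [← ENNReal.ofReal_one]
  exact (ENNReal.ofReal_lt_ofReal_iff one_pos).mpr (by norm_num)

end Pool.Agent.Results.MP_662df3_gt.TwoSidedExponential
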